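import Pool.Agent.H918.D.Five

/-!
The big Picard theorem and the special sets for projective manifolds with positive 2-forms (for
surfaces: with ample canonical bundle) with a holomorphic map to an elliptic curve whose entire curves
in the fibres cross other branches of the fibre; for example, surfaces with ample canonical bundle
fibred in curves with only nodes over an elliptic curve.
-/

set_option autoImplicit false

open Filter Topology LinearAlgebra.Projectivization FF Pool.Agent.W602.GT Pool.Agent.N154.GG
  Pool.Agent.H918.SS

/-- Let `X = {F = 0}` be a smooth irreducible projective variety of dimension `d ≥ 2` whose 2-forms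
are positive (`Λ² Ω` ample; if `d = 2`: the canonical bundle is ample), and let `α` be a holomorphic
map from `X` to an elliptic curve `ℂ / L`. Let `B` be a finite subset of the elliptic curve, such that
every nonconstant holomorphic map from the complex plane to a fibre of `α` lies in a fibre over a
point of `B` and crosses somewhere a hypersurface germ which is contained in the fibres over `B`
(`HyperbolicOrCrossing`). This holds for example if `d = 2` and all fibres of `α` are reduced curves
with only nodes; the singular fibres may contain rational and elliptic curves.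

Then there is a finite set `S` of holomorphic maps `g` from the complex plane to `X`, with
`α (g z) = z`, such that every holomorphic map `f` from the punctured disc to `X` which does not
extend to a holomorphic map from the disc to `X` has its values in the fibre over a point of `B`, or
is `f (exp z) = g (φ z)` with `g` in `S` and a holomorphic function `φ` on the left half plane.

Moreover, there is a form `G`, not identically zero on `X`, with the following property. Let `H` be a
form, not identically zero on `X`, which is zero on the fibres over `B`. Then the proper Zariski closed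
subset `{G H = 0}` of `X` contains:

(p) the images of the holomorphic maps from the punctured disc to `X` with essential singularities;

(h) the images of the nonconstant holomorphic maps from the complex plane to `X`;

(sab) the images of the nonconstant meromorphic maps from `ℂ ^ m` to `X`, for example those given by
rational maps from semi-abelian varieties;

(alg) the irreducible curves in `X` which are not of general type (of geometric genus at most one;
`K'` is the function field and `y'` the generic point of the curve). -/
theorem Pool.Agent.Results.MP_160ed4_ag.CrossingFibresSpecialSets.result {n : ℕ} {ι : Type}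
    (F : ι → MvPolynomial (Fin (n + 1)) ℂ) (d : ℕ) (K : Type) [Field K] [Algebra ℂ K]
    (y : Fin (n + 1) → K) (hX : SmoothVariety F d y) (hd : 2 ≤ d) {κ : Type}
    (η : κ → (Fin (n + 1) → ℂ) → (Fin (n + 1) → ℂ) → (Fin (n + 1) → ℂ) → ℂ)
    (hη : PositiveTwoForms (Cone F) d η) (L : PeriodPair)
    (α : (Fin (n + 1) → ℂ) → ℂ ⧸ L.lattice) (hα : HolToTorus (Cone F) L α)
    (B : Set (ℂ ⧸ L.lattice)) (hB : B.Finite) (hfib : HyperbolicOrCrossing F α B) :
    ∃ S : Set (ℂ → ℙ ℂ (Fin (n + 1) → ℂ)), S.Finite ∧
      (∀ g ∈ S, HolIn F g ∧ ∀ z, α (g z).rep = Submodule.Quotient.mk z) ∧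
      (∀ f, PunctIn F f → Extends F f ∨ (∃ b ∈ B, ∀ z ∈ PDisc, α (f z).rep = b) ∨
        ∃ g ∈ S, ∃ φ : ℂ → ℂ, DifferentiableOn ℂ φ {z | z.re < 0} ∧
          ∀ z : ℂ, z.re < 0 → f (Complex.exp z) = g (φ z)) ∧
      ∃ G : MvPolynomial (Fin (n + 1)) ℂ, IsForm G ∧ val y G ≠ 0 ∧
        ∀ H : MvPolynomial (Fin (n + 1)) ℂ, IsForm H → val y H ≠ 0 →
          (∀ x ∈ Cone F, α x ∈ B → val x H = 0) → IsForm (G * H) ∧ val y (G * H) ≠ 0 ∧
          (∀ f, PunctIn F f → Extends F f ∨ ∀ z ∈ PDisc, val (f z).rep (G * H) = 0) ∧
          (∀ f, HolIn F f → (∀ z w, f z = f w) ∨ ∀ z, val (f z).rep (G * H) = 0) ∧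
          (∀ (m : ℕ) (h : (Fin m → ℂ) → Fin (n + 1) → ℂ), MeroIn F h →
            ∀ z, h z ≠ 0 → val (h z) (G * H) = 0) ∧
          ∀ (K' : Type) [Field K'] [Algebra ℂ K'] (y' : Fin (n + 1) → K'), SubVar F K' 1 y' →
            ¬ GeneralType ℂ K' 1 → val y' (G * H) = 0 :=
  five_geo hX hd hη hα hB hfib
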