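import Pool.Agent.H918.C.Spv

/-!
Essential singularities of holomorphic maps to closed subsets of projective manifolds with positive
2-forms (for surfaces: with ample canonical bundle): equality of the special sets, unless there is an
entire curve of bounded derivative which is tangent to all symmetric differentials.
-/

set_option autoImplicit false

open Filter Topology Pool.Agent.W602.GT Pool.Agent.N155.BB Pool.Agent.H918.SD
  LinearAlgebra.Projectivization

/-- Let `X = {F = 0}` be a projective manifold of dimension `d`, and `Z = {G = 0}` a projective set,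
such that the 2-forms on `X` are positive outside `Z` (for example, `Λ² Ω` is ample and `Z` is empty;
for surfaces: the canonical bundle is ample and `Z` is empty). Let `V` be any closed subset of
projective space. Then one of the following holds.

(1) There is a nonconstant holomorphic map of bounded derivative from the complex plane to `X`, with
values in `V`, which is tangent to every symmetric differential of positive degree on `X`.

(2) There is a holomorphic map from the complex plane to `X` with values in `V ∩ Z` whose derivative
is bounded above and below by positive numbers (it does not exist if the holomorphic maps from the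
complex plane to `X ∩ Z` are constant).

(3) There is a finite set `S` of nonconstant holomorphic maps from elliptic curves to `X`, with
values in `V`, such that every holomorphic map `f` from the punctured disc to `X`, with values in `V`
and with an essential singularity at the origin, satisfies `f (exp z) = g (s z)` for some `g` in `S`
and some holomorphic function `s` on the left half plane. So the Zariski closure `Sp_p(V)` of the
union of the images of such maps `f` is equal to the Zariski closure `Sp_h(V)` of the union of the
nonconstant entire curves in `V`, and to the Zariski closure of the union of the images of the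
nonconstant holomorphic maps from elliptic curves to `V`; and if `d ≥ 2` then it is nowhere dense in
`X`. -/
theorem Pool.Agent.Results.MP_160ed4_ag.EssentialOrTangent.result {n : ℕ} {ι ι' : Type}
    (F : ι → MvPolynomial (Fin (n + 1)) ℂ) (d : ℕ) (hX : ProjManifold F d)
    (G : ι' → MvPolynomial (Fin (n + 1)) ℂ) (hG : ∀ i, IsForm (G i)) {κ : Type}
    (η : κ → (Fin (n + 1) → ℂ) → (Fin (n + 1) → ℂ) → (Fin (n + 1) → ℂ) → ℂ)
    (hη : PositiveTwoForms (Cone F) (Cone G) d η) (V : Set (ℙ ℂ (Fin (n + 1) → ℂ)))
    (hV : ClosedSet V) :
    (∃ f : ℂ → ℙ ℂ (Fin (n + 1) → ℂ), EntireIn F V f ∧ (∃ C, DerBetween 0 C f) ∧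
      ∀ k : ℕ, 0 < k → ∀ σ : (Fin (n + 1) → ℂ) → (Fin (n + 1) → ℂ) → ℂ,
        SymDiff (Cone F) d k σ → TangentTo σ f) ∨
    (∃ f : ℂ → ℙ ℂ (Fin (n + 1) → ℂ), EntireIn F V f ∧ (∀ z, (f z).rep ∈ Cone G) ∧
      ∃ c C, 0 < c ∧ DerBetween c C f) ∨
    ((∃ S : Finset (ℂ → ℙ ℂ (Fin (n + 1) → ℂ)), (∀ g ∈ S, EntireIn F V g ∧ DoublyPeriodic g) ∧
      ∀ f, EssentialIn F V f → ∃ g ∈ S, ∃ s : ℂ → ℂ, DifferentiableOn ℂ s {z | z.re < 0} ∧
          ∀ z : ℂ, z.re < 0 → f (Complex.exp z) = g (s z)) ∧
      SpPunctured F V = SpEntire F V ∧ SpElliptic F V = SpEntire F V ∧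
      (2 ≤ d → ∀ x ∈ Cone F, ∃ᶠ u in 𝓝 x, u ∈ Cone F ∧ u ∉ SpPunctured F V)) :=
  special_sets_p hX hG hη hV
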