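import Pool.Agent.H918.A.Prod

/-!
The Green-Griffiths-Lang conjecture for projective manifolds with positive 2-forms (for surfaces:
with ample canonical bundle) and with symmetric differentials which are products of exact rational
differentials and a rational function, for example for surfaces fibred over parabolic orbifolds.
-/

set_option autoImplicit false

open Filter Topology Pool.Agent.W602.GT Pool.Agent.N155.BB Pool.Agent.H918.SD
  LinearAlgebra.Projectivization

/-- Let `X = {F = 0}` be a projective manifold of dimension `d`, whose 2-forms are positive outside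
`Z = {G = 0}` (for example, `Λ² Ω` is ample and `Z` is empty; for surfaces: the canonical bundle is
ample and `Z` is empty), where `Z ∩ X` contains no nonconstant entire curves. Let `σ j` be symmetric
differentials on `X`, of degrees `k j > 0`, of the form `(R / S) d(P₁ / Q₁) ⋯ d(P_k / Q_k)` with forms
`R`, `S`, `P_l`, `Q_l` depending on `j`. For example, if `P / Q` is a holomorphic map from `X` to the
line whose fibres over `r` points `a_i` have multiplicities at least `m_i` along all their components
(these multiplicities may be coprime), with `∑ (1 - 1 / m_i) = 2`, then a power of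
`∏ (P / Q - a_i) ^ (1 / m_i - 1) d(P / Q)` is such a differential.

Suppose that there are no vertical nonconstant entire curves in `X`: those which lie, for every `j`,
in `{R = 0}` or in a member `{a P_l + b Q_l = 0}` of one of the pencils. (In the example: the fibres
contain no nonconstant entire curves.)

Then there is a finite set `A` of nonconstant holomorphic maps from elliptic curves to `X` such that
every nonconstant holomorphic map `f` from the complex plane to `X` is `f z = g (s z)` with `g` in
`A` and an entire function `s`. If `d ≥ 2` then all nonconstant entire curves in `X` lie in a nowhere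
dense algebraic subset: for every point `x` of `X` there is a form `E` which vanishes on all of them
and does not vanish identically on `X` near `x`. -/
theorem Pool.Agent.Results.MP_2a5ae2_ag.ProductDifferentials.result {n : ℕ} {ι ι' : Type}
    (F : ι → MvPolynomial (Fin (n + 1)) ℂ) (d : ℕ) (hX : ProjManifold F d)
    (G : ι' → MvPolynomial (Fin (n + 1)) ℂ) (hG : ∀ i, IsForm (G i)) {κ : Type}
    (η : κ → (Fin (n + 1) → ℂ) → (Fin (n + 1) → ℂ) → (Fin (n + 1) → ℂ) → ℂ)
    (hη : PositiveTwoForms (Cone F) (Cone G) d η)
    (hZ : ∀ f, HolIn F f → (∀ z, (f z).rep ∈ Cone G) → ∀ z, f z = f 0)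
    {J : Type} (k : J → ℕ) (hk : ∀ j, 0 < k j)
    (σ : J → (Fin (n + 1) → ℂ) → (Fin (n + 1) → ℂ) → ℂ)
    (hσ : ∀ j, SymDiff (Cone F) d (k j) (σ j)) (R S : J → MvPolynomial (Fin (n + 1)) ℂ)
    (P Q : ∀ j, Fin (k j) → MvPolynomial (Fin (n + 1)) ℂ)
    (hp : ∀ j, IsProduct (Cone F) (k j) (σ j) (R j) (S j) (P j) (Q j))
    (hv : ∀ f, HolIn F f → (∀ j, Vertical (R j) (P j) (Q j) f) → ∀ z, f z = f 0) :
    ∃ A : Finset (ℂ → ℙ ℂ (Fin (n + 1) → ℂ)),
      (∀ g ∈ A, HolIn F g ∧ (∃ z, g z ≠ g 0) ∧ DoublyPeriodic g) ∧
      (∀ f, HolIn F f → (∀ z, f z = f 0) ∨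
        ∃ g ∈ A, ∃ s : ℂ → ℂ, Differentiable ℂ s ∧ ∀ z, f z = g (s z)) ∧
      (2 ≤ d → ∀ x ∈ Cone F, ∃ E : MvPolynomial (Fin (n + 1)) ℂ, IsForm E ∧
        (∀ f, HolIn F f → (∀ z, f z = f 0) ∨ ∀ z, val (f z).rep E = 0) ∧
        ∃ᶠ u in 𝓝 x, u ∈ Cone F ∧ val u E ≠ 0) :=
  product_ggl hX hG hη hZ hk hσ hp hv
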