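import Pool.Agent.H918.C.Kbv

/-!
The Kobayashi pseudodistance of closed subsets of projective manifolds with positive 2-forms (for
surfaces: with ample canonical bundle): they are hyperbolic modulo finitely many elliptic curves,
unless there is an entire curve of bounded derivative which is tangent to all symmetric
differentials.
-/

set_option autoImplicit false

open Filter Topology Pool.Agent.W602.GT Pool.Agent.N155.BB Pool.Agent.H918.SD
  LinearAlgebra.Projectivization
open Pool.Agent.N154.GG (kobayashi projDist)

/-- Let `X = {F = 0}` be a projective manifold of dimension `d`, and `Z = {G = 0}` a projective set,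
such that the 2-forms on `X` are positive outside `Z` (for example, `Λ² Ω` is ample and `Z` is empty;
for surfaces: the canonical bundle is ample and `Z` is empty). Let `V` be any closed subset of
projective space. Then one of the following holds.

(1) There is a nonconstant holomorphic map of bounded derivative from the complex plane to `X`, with
values in `V`, which is tangent to every symmetric differential of positive degree on `X`.

(2) There is a holomorphic map from the complex plane to `X` with values in `V ∩ Z` whose derivative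
is bounded above and below by positive numbers (it does not exist if the holomorphic maps from the
complex plane to `X ∩ Z` are constant).

(3) There is a finite set `S` of nonconstant holomorphic maps from elliptic curves to `X`, with
values in `V`, such that `X ∩ V` is Kobayashi hyperbolic modulo the union `Ξ` of their images: the
Kobayashi pseudodistance of `X ∩ V` (the infimum of the lengths of the chains of holomorphic discs in
`X` with values in `V`) of two different points is positive unless both are in `Ξ`; and for every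
`ε > 0` there is a number `c > 0` such that it is at least `c D ^ ε min (D, dist p q)` if `D ≤ 1` is
at most the distance of `p` from `Ξ`. -/
theorem Pool.Agent.Results.MP_8d161d_ag.KobayashiOrTangent.result {n : ℕ} {ι ι' : Type}
    (F : ι → MvPolynomial (Fin (n + 1)) ℂ) (d : ℕ) (hX : ProjManifold F d)
    (G : ι' → MvPolynomial (Fin (n + 1)) ℂ) (hG : ∀ i, IsForm (G i)) {κ : Type}
    (η : κ → (Fin (n + 1) → ℂ) → (Fin (n + 1) → ℂ) → (Fin (n + 1) → ℂ) → ℂ)
    (hη : PositiveTwoForms (Cone F) (Cone G) d η) (V : Set (ℙ ℂ (Fin (n + 1) → ℂ)))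
    (hV : ClosedSet V) :
    (∃ f : ℂ → ℙ ℂ (Fin (n + 1) → ℂ), EntireIn F V f ∧ (∃ C, DerBetween 0 C f) ∧
      ∀ k : ℕ, 0 < k → ∀ σ : (Fin (n + 1) → ℂ) → (Fin (n + 1) → ℂ) → ℂ,
        SymDiff (Cone F) d k σ → TangentTo σ f) ∨
    (∃ f : ℂ → ℙ ℂ (Fin (n + 1) → ℂ), EntireIn F V f ∧ (∀ z, (f z).rep ∈ Cone G) ∧
      ∃ c C, 0 < c ∧ DerBetween c C f) ∨
    ∃ S : Finset (ℂ → ℙ ℂ (Fin (n + 1) → ℂ)), (∀ g ∈ S, EntireIn F V g ∧ DoublyPeriodic g) ∧
      (∀ p q : ℙ ℂ (Fin (n + 1) → ℂ), p ≠ q → (∀ g ∈ S, ∀ z, p ≠ g z) ∨ (∀ g ∈ S, ∀ z, q ≠ g z) →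
        0 < kobayashi (CV F V) p q) ∧
      ∀ ε : ℝ, 0 < ε → ∃ c : ℝ, 0 < c ∧ ∀ p q : ℙ ℂ (Fin (n + 1) → ℂ), ∀ D : ℝ, 0 ≤ D → D ≤ 1 →
        (∀ g ∈ S, ∀ z, D ≤ projDist p (g z)) →
        ENNReal.ofReal (c * D ^ ε * min D (projDist p q)) ≤ kobayashi (CV F V) p q :=
  kobayashi_or_tangent hX hG hη hV
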